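import Pool.Agent.H85.PN.U

/-!
# PRN, row RPL: real places in extensions of odd degree
-/

set_option autoImplicit false

namespace Pool.PRN

open Polynomial NumberField IsDedekindDomain Pool.HYP Pool.TOW Pool.AVS Pool.T1 Pool.NF Pool.PRK

/-- Over a real place there is a real place. -/
theorem rpl_ex (K L : Type) [Field K] [NumberField K] [Field L] [NumberField L] [Algebra K L]
    (hodd : Odd (Module.finrank K L)) (v : InfinitePlace K) (hv : v.IsReal) :
    ∃ w : InfinitePlace L, w.IsReal ∧ w.comap (algebraMap K L) = v := by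
  obtain ⟨φ, hφ, rfl⟩ := hv
  let := φ.toAlgebra
  have hc : Fintype.card (L →ₐ[K] ℂ) = Module.finrank K L := AlgHom.card K L ℂ
  let cj : (L →ₐ[K] ℂ) → (L →ₐ[K] ℂ) := fun ψ =>
    { (starRingEnd ℂ).comp ψ.toRingHom with
      commutes' := fun x => by
        change (starRingEnd ℂ) (ψ (algebraMap K L x)) = algebraMap K ℂ x
        rw [ψ.commutes]
        exact congrArg (fun f : K →+* ℂ => f x) hφ }
  have hcj : ∀ ψ, cj (cj ψ) = ψ := by
    intro ψ
    ext x
    exact Complex.conj_conj _
  let σ : Equiv.Perm (L →ₐ[K] ℂ) := ⟨cj, cj, hcj, hcj⟩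
  have : Fact (Nat.Prime 2) := ⟨Nat.prime_two⟩
  obtain ⟨ψ, hψ⟩ := Equiv.Perm.exists_fixed_point_of_prime (p := 2) (n := 1)
    (by
      rw [hc]
      intro h
      exact (Nat.not_even_iff_odd.2 hodd) (even_iff_two_dvd.2 h)) (σ := σ)
    (by
      rw [pow_one, sq]
      exact Equiv.ext hcj)
  refine ⟨InfinitePlace.mk ψ.toRingHom, ⟨ψ.toRingHom, ?_, rfl⟩, ?_⟩
  · change star ψ.toRingHom = ψ.toRingHom
    ext x
    exact congrArg (fun f : L →ₐ[K] ℂ => f x) hψ
  · rw [InfinitePlace.comap_mk]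
    congr 1
    ext x
    exact ψ.commutes x

theorem rpl : RPLStmt := by
  intro K L _ _ _ _ _ hodd
  classical
  choose f hf hf' using fun v : {v : InfinitePlace K // v.IsReal} => rpl_ex K L hodd v.1 v.2
  refine Fintype.card_le_of_injective (fun v => (⟨f v, hf v⟩ : {w : InfinitePlace L // w.IsReal})) ?_
  intro v v' h
  have h1 : f v = f v' := congrArg Subtype.val h
  apply Subtype.ext
  rw [← hf' v, ← hf' v', h1]

end Pool.PRN
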