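import Pool.Agent.H85.PN.U

/-!
# PRN, row UNK: the units of a number field modulo squares
-/

set_option autoImplicit false

namespace Pool.PRN

open Polynomial NumberField IsDedekindDomain Pool.HYP Pool.TOW Pool.AVS Pool.T1 Pool.NF Pool.PRK

namespace UNKaux

variable (K : Type) [Field K] [NumberField K]

/-- The units from the torsion and the exponents. -/
noncomputable def mk : Units.torsion K × Multiplicative (Fin (Units.rank K) → ℤ) →* (𝓞 K)ˣ where
  toFun x := x.1 * ∏ i, Units.fundSystem K i ^ (x.2.toAdd i)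
  map_one' := by simp
  map_mul' x y := by
    simp only [Prod.fst_mul, Prod.snd_mul, toAdd_mul, Pi.add_apply, zpow_add, Finset.prod_mul_distrib,
      Subgroup.coe_mul]
    exact mul_mul_mul_comm _ _ _ _

lemma mk_bij : Function.Bijective (mk K) := by
  constructor
  · intro x y hxy
    obtain ⟨z, -, hz⟩ := Units.exist_unique_eq_mul_prod K (mk K x)
    have h1 := hz (x.1, x.2.toAdd) rfl
    have h2 := hz (y.1, y.2.toAdd) hxy
    have h3 := h1.trans h2.symm
    rw [Prod.mk.injEq] at h3
    exact Prod.ext h3.1 (Multiplicative.toAdd.injective h3.2)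
  · intro u
    obtain ⟨z, hz, -⟩ := Units.exist_unique_eq_mul_prod K u
    exact ⟨(z.1, Multiplicative.ofAdd z.2), hz.symm⟩

/-- The group of the units. -/
noncomputable def eqv : Units.torsion K × Multiplicative (Fin (Units.rank K) → ℤ) ≃* (𝓞 K)ˣ :=
  MulEquiv.ofBijective (mk K) (mk_bij K)

/-- Reduction modulo squares of the torsion and modulo `2` of the exponents. -/
noncomputable def red : Units.torsion K × Multiplicative (Fin (Units.rank K) → ℤ) →*
    (Units.torsion K ⧸ (powMonoidHom 2 : Units.torsion K →* Units.torsion K).range) ×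
      Multiplicative (Fin (Units.rank K) → ZMod 2) :=
  MonoidHom.prodMap (QuotientGroup.mk' _)
    (AddMonoidHom.toMultiplicative
      (AddMonoidHom.pi fun i => (Int.castAddHom (ZMod 2)).comp (Pi.evalAddMonoidHom _ i)))

lemma red_surj : Function.Surjective (red K) := by
  rintro ⟨a, b⟩
  obtain ⟨a, rfl⟩ := QuotientGroup.mk_surjective a
  choose c hc using fun i => ZMod.intCast_surjective (b.toAdd i)
  refine ⟨(a, Multiplicative.ofAdd c), Prod.ext rfl ?_⟩
  apply Multiplicative.toAdd.injective
  funext i
  exact hc i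

lemma red_ker : (red K).ker =
    (powMonoidHom 2 : Units.torsion K × Multiplicative (Fin (Units.rank K) → ℤ) →* _).range := by
  ext ⟨a, b⟩
  rw [MonoidHom.mem_ker, MonoidHom.mem_range]
  constructor
  · intro h
    have h1 : (QuotientGroup.mk a : Units.torsion K ⧸
        (powMonoidHom 2 : Units.torsion K →* Units.torsion K).range) = 1 := congrArg Prod.fst h
    rw [QuotientGroup.eq_one_iff] at h1
    obtain ⟨c, hc⟩ := h1
    have h2 : ∀ i, ((b.toAdd i : ℤ) : ZMod 2) = 0 := fun i =>
      congrFun (congrArg (fun z => Multiplicative.toAdd (Prod.snd z)) h) i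
    have h3 : ∀ i, ∃ d : ℤ, b.toAdd i = 2 * d := fun i =>
      (ZMod.intCast_zmod_eq_zero_iff_dvd _ 2).1 (h2 i)
    choose d hd using h3
    refine ⟨(c, Multiplicative.ofAdd d), Prod.ext hc ?_⟩
    apply Multiplicative.toAdd.injective
    funext i
    rw [hd i]
    simp
  · rintro ⟨⟨c, d⟩, h⟩
    rw [← h]
    refine Prod.ext ?_ ?_
    · change (QuotientGroup.mk (c ^ 2) : Units.torsion K ⧸
        (powMonoidHom 2 : Units.torsion K →* Units.torsion K).range) = 1
      rw [QuotientGroup.eq_one_iff]
      exact ⟨c, rfl⟩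
    · apply Multiplicative.toAdd.injective
      funext i
      change (((d ^ 2).toAdd i : ℤ) : ZMod 2) = 0
      rw [toAdd_pow, Pi.smul_apply, nsmul_eq_mul]
      push_cast
      rw [show (2 : ZMod 2) = 0 from rfl, zero_mul]

lemma card_tor : Nat.card (Units.torsion K ⧸
    (powMonoidHom 2 : Units.torsion K →* Units.torsion K).range) = 2 := by
  have h1 := IsCyclic.index_powMonoidHom_range (G := Units.torsion K) 2
  rw [Subgroup.index] at h1
  rw [h1]
  exact Nat.gcd_eq_right (even_iff_two_dvd.1 (Units.even_torsionOrder K))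

/-- The units modulo squares. -/
noncomputable def eqv2 : ((𝓞 K)ˣ ⧸ (powMonoidHom 2 : (𝓞 K)ˣ →* (𝓞 K)ˣ).range) ≃*
    (Units.torsion K ⧸ (powMonoidHom 2 : Units.torsion K →* Units.torsion K).range) ×
      Multiplicative (Fin (Units.rank K) → ZMod 2) :=
  (QuotientGroup.congr _ _ (eqv K).symm (by
    rw [red_ker]
    exact MulEquiv.map_range_powMonoidHom _ _)).trans
  (QuotientGroup.quotientKerEquivOfSurjective (red K) (red_surj K))

end UNKaux

open UNKaux in
theorem unk : UNKStmt := by
  intro K _ _
  have h1 : Finite (Units.torsion K ⧸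
      (powMonoidHom 2 : Units.torsion K →* Units.torsion K).range) := inferInstance
  have h2 : Finite (Multiplicative (Fin (Units.rank K) → ZMod 2)) :=
    inferInstanceAs (Finite (Fin (Units.rank K) → ZMod 2))
  refine ⟨Finite.of_equiv _ (eqv2 K).symm.toEquiv, ?_⟩
  rw [Nat.card_congr (eqv2 K).toEquiv, Nat.card_prod, card_tor]
  have h3 : Nat.card (Multiplicative (Fin (Units.rank K) → ZMod 2)) = 2 ^ Units.rank K := by
    rw [Nat.card_congr Multiplicative.toAdd, Nat.card_eq_fintype_card]
    simp
  rw [h3, pow_succ]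
  ring

end Pool.PRN
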